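import Pool.Agent.Helper10.GO.GoalsP

/-!
Packet GO-AFP (MP_6af536_nt): affine maps over a finite field have a polynomial iterate equal to the
identity.
-/

set_option autoImplicit false

open MvPolynomial

noncomputable section

namespace Pool.Agent.Helper93.GO

open Pool.Agent.Helper10.GO

/-- The affine polynomial map. -/
def aff {k : Type} [Field k] {N : ℕ} (A : Matrix (Fin N) (Fin N) k) (v : Fin N → k) :
    Fin N → MvPolynomial (Fin N) k :=
  fun i => C (v i) + ∑ j, C (A i j) * X j

theorem aff_one {k : Type} [Field k] {N : ℕ} (i : Fin N) :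
    aff (1 : Matrix (Fin N) (Fin N) k) 0 i = X i := by
  unfold aff
  rw [Finset.sum_eq_single i]
  · simp
  · intro j _ hj
    rw [Matrix.one_apply_ne (Ne.symm hj)]
    simp
  · intro h
    exact absurd (Finset.mem_univ i) h

theorem aff_comp {k : Type} [Field k] {N : ℕ} (A A' : Matrix (Fin N) (Fin N) k) (v v' : Fin N → k)
    (i : Fin N) : aeval (aff A' v') (aff A v i) = aff (A * A') (v + A.mulVec v') i := by
  have e1 : aeval (aff A' v') (aff A v i) = C (v i) + ∑ j, C (A i j) * aff A' v' j := by
    conv_lhs => unfold aff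
    rw [map_add, map_sum, aeval_C]
    congr 1
    refine Finset.sum_congr rfl fun j _ => ?_
    rw [map_mul, aeval_C, aeval_X]
    rfl
  rw [e1]
  unfold aff
  simp only [mul_add, Finset.sum_add_distrib, Finset.mul_sum, Pi.add_apply, Matrix.mulVec,
    dotProduct, Matrix.mul_apply, C_add, map_sum, C_mul, Finset.sum_mul]
  rw [← add_assoc]
  congr 1
  rw [Finset.sum_comm]
  refine Finset.sum_congr rfl fun j _ => Finset.sum_congr rfl fun l _ => ?_
  ring

theorem afp : S_AFP := by
  intro k _ _ N A v hA
  refine ⟨Nat.card_pos, ?_⟩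
  -- the affine map as a function
  set π : (Fin N → k) → (Fin N → k) := fun y => v + A.mulVec y with hπ
  have hinj : Function.Injective π := by
    intro y y' h
    have h2 : A.mulVec y = A.mulVec y' := add_left_cancel h
    have hu : IsUnit A := (Matrix.isUnit_iff_isUnit_det A).2 (isUnit_iff_ne_zero.2 hA)
    exact Matrix.mulVec_injective_of_isUnit hu h2
  have hbij : Function.Bijective π := Finite.injective_iff_bijective.1 hinj
  set e : Equiv.Perm (Fin N → k) := Equiv.ofBijective π hbij with he
  -- the iterates are affine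
  have key : ∀ n, ∃ (A' : Matrix (Fin N) (Fin N) k) (v' : Fin N → k),
      (∀ i, pit (aff A v) n i = aff A' v' i) ∧ ∀ y, v' + A'.mulVec y = π^[n] y := by
    intro n
    induction n with
    | zero =>
      refine ⟨1, 0, fun i => (aff_one i).symm, fun y => ?_⟩
      rw [Matrix.one_mulVec, zero_add]
      rfl
    | succ n ih =>
      obtain ⟨A', v', h1, h2⟩ := ih
      refine ⟨A * A', v + A.mulVec v', fun i => ?_, fun y => ?_⟩
      · have h3 : pit (aff A v) n = aff A' v' := funext h1
        show aeval (pit (aff A v) n) (aff A v i) = _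
        rw [h3, aff_comp]
      · rw [Function.iterate_succ_apply', ← h2, hπ]
        simp only [Matrix.mulVec_add, Matrix.mulVec_mulVec, add_assoc]
  obtain ⟨A', v', h1, h2⟩ := key (Nat.card (Equiv.Perm (Fin N → k)))
  have hid : ∀ y, v' + A'.mulVec y = y := by
    intro y
    rw [h2]
    have h3 : e ^ Nat.card (Equiv.Perm (Fin N → k)) = 1 := pow_card_eq_one'
    have h4 : (⇑e)^[Nat.card (Equiv.Perm (Fin N → k))] y = y := by
      rw [Equiv.Perm.iterate_eq_pow, h3]
      rfl
    exact h4
  have hv : v' = 0 := by
    have h3 := hid 0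
    rwa [Matrix.mulVec_zero, add_zero] at h3
  have hA' : A' = 1 := by
    apply Matrix.ext_of_mulVec_single
    intro j
    have h3 := hid (Pi.single j 1)
    rw [hv, zero_add] at h3
    rw [h3, Matrix.one_mulVec]
  intro i
  show pit (aff A v) _ i = X i
  rw [h1, hv, hA', aff_one]

end Pool.Agent.Helper93.GO
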