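import Pool.Agent.Helper40.GO.GoalsQ

/-!
# Project GO (MP_6af536_nt), packet QLIN: linear algebra
-/

set_option autoImplicit false

noncomputable section

namespace Pool.Agent.Helper93.GO

open Pool.Agent.Helper40.GO

/-- If `ker A` and `ker B` meet in `0` then `A + W B` is invertible for some `W`. -/
theorem qlin : S_QLIN := by
  intro k _ m s A B h
  obtain ⟨C, hC⟩ := Submodule.exists_isCompl (LinearMap.range A.mulVecLin)
  have hdim : Module.finrank k (LinearMap.ker A.mulVecLin) = Module.finrank k C := by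
    have h1 := LinearMap.finrank_range_add_finrank_ker A.mulVecLin
    have h2 := Submodule.finrank_add_eq_of_isCompl hC
    omega
  let e : LinearMap.ker A.mulVecLin ≃ₗ[k] C := LinearEquiv.ofFinrankEq _ _ hdim
  have hinj : Function.Injective (B.mulVecLin.domRestrict (LinearMap.ker A.mulVecLin)) := by
    rw [injective_iff_map_eq_zero]
    intro v hv
    have h1 : A.mulVec (v : Fin m → k) = 0 := by
      have := v.2
      rwa [LinearMap.mem_ker, Matrix.mulVecLin_apply] at this
    have h2 : B.mulVec (v : Fin m → k) = 0 := by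
      rwa [LinearMap.domRestrict_apply, Matrix.mulVecLin_apply] at hv
    exact Subtype.ext (h _ h1 h2)
  obtain ⟨g, hg⟩ := LinearMap.exists_leftInverse_of_injective _ (LinearMap.ker_eq_bot.2 hinj)
  refine ⟨LinearMap.toMatrix' (C.subtype ∘ₗ e.toLinearMap ∘ₗ g), ?_⟩
  intro hdet
  obtain ⟨v, hv0, hv⟩ := Matrix.exists_mulVec_eq_zero_iff.2 hdet
  apply hv0
  rw [Matrix.add_mulVec, ← Matrix.mulVec_mulVec, LinearMap.toMatrix'_mulVec] at hv
  have hW : (C.subtype ∘ₗ e.toLinearMap ∘ₗ g) (B.mulVec v) = ((e (g (B.mulVec v)) : C) : Fin m → k) := rfl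
  rw [hW] at hv
  have hmem : A.mulVec v ∈ LinearMap.range A.mulVecLin := ⟨v, rfl⟩
  have hmem2 : A.mulVec v ∈ C := by
    rw [eq_neg_of_add_eq_zero_left hv]
    exact C.neg_mem (e (g (B.mulVec v))).2
  have hA : A.mulVec v = 0 := by
    have : A.mulVec v ∈ LinearMap.range A.mulVecLin ⊓ C := ⟨hmem, hmem2⟩
    rwa [hC.inf_eq_bot, Submodule.mem_bot] at this
  rw [hA, zero_add] at hv
  have h3 : g (B.mulVec v) = 0 := by
    have : e (g (B.mulVec v)) = 0 := Subtype.ext hv
    exact (LinearEquiv.map_eq_zero_iff e).1 this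
  have h4 := LinearMap.congr_fun hg ⟨v, by rw [LinearMap.mem_ker, Matrix.mulVecLin_apply, hA]⟩
  have h5 : g (B.mulVec v) = (⟨v, by rw [LinearMap.mem_ker, Matrix.mulVecLin_apply, hA]⟩ : LinearMap.ker A.mulVecLin) := h4
  rw [h3] at h5
  exact (congrArg Subtype.val h5).symm

end Pool.Agent.Helper93.GO
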